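import Pool.Agent.Lib.MP_26a7e2_co.Star

/-!
# MP_26a7e2_co, Q1: a disproof

There is a sweep oriented matroid `M` of rank 5 on 12 points such that no Dilworth sweep oriented
matroid `M'` with the same little oriented matroid admits a weak map to `M`.
-/

namespace Pool.Agent.Results.MP_26a7e2_co.NoDilworthPreimage

open Pool.Agent.Sweep

theorem result : ∃ M : Set (SV (E 12)), IsSweep M ∧ rk M Finset.univ = 5 ∧
    ¬ ∃ M' : Set (SV (E 12)), IsSweep M' ∧ IsDilworth M' ∧ little M' = little M ∧
      WeakMap M' M := by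
  refine ⟨MM, MM_sweep, ?_, ?_⟩
  · apply le_antisymm
    · refine rk_le fun I _ hI => ?_
      have h := steinitz {zz 0, zz 1, zz 2, zz 5, gg} MM MM_isOM I hI (by
        intro X hX h0 e _
        have h1 : ∀ v, X (zz v) = 0 := NN_rank _ (MM_NN hX) (h0 _ (by simp)) (h0 _ (by simp))
          (h0 _ (by simp)) (h0 _ (by simp))
        exact MM_zero hX h1 (h0 _ (by simp)) e)
      exact le_trans h Finset.card_le_five
    · have h1 := MM_indep (NN_indep (op_card 0) (op_two 0))
      have h2 := le_rk (L := MM) (F := Finset.univ) (Finset.subset_univ _) h1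
      rw [Finset.card_insert_of_notMem, Finset.card_image_of_injective _ zz_inj, op_card 0] at h2
      · exact h2
      · intro h3
        obtain ⟨v, -, hv⟩ := Finset.mem_image.1 h3
        exact zz_ne_gg v hv
  · rintro ⟨M', h1, h2, h3, h4⟩
    have h : Pre M' := ⟨h1, h2, h3, h4⟩
    obtain ⟨D, hD⟩ := h.laws
    exact hD.false

end Pool.Agent.Results.MP_26a7e2_co.NoDilworthPreimage
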